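import Pool.Agent.Helper5.SM.Marg

/-!
# Project SM, block GI: entropy and the inequality of Gibbs
-/

set_option autoImplicit false

open MeasureTheory Set Filter Topology

namespace Pool.Agent.Helper63.SM

variable {X : Type*} [MeasurableSpace X] {μ : Measure X} [IsProbabilityMeasure μ] {k : ℕ}
  {f : (Fin k → X) → ℝ}

theorem ent_int (hf : Dens μ f) (S : Finset (Fin k)) :
    Integrable (fun x => f x * Real.log (mg μ S f x)) (Measure.pi fun _ : Fin k => μ) ∧
      Ent μ S f = ∫ x, f x * Real.log (mg μ S f x) ∂(Measure.pi fun _ : Fin k => μ) := by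
  have hd := mg_dens hf S
  obtain ⟨C, hC⟩ := hd.bdd
  obtain ⟨B, hB⟩ := (isCompact_Icc (a := (0 : ℝ)) (b := C)).exists_bound_of_continuousOn
    Real.continuous_mul_log.continuousOn
  have hi : Integrable (fun x => mg μ S f x * Real.log (mg μ S f x))
      (Measure.pi fun _ : Fin k => μ) :=
    int_bdd (hd.meas.mul (Real.measurable_log.comp hd.meas)) (C := B) fun x =>
      hB _ ⟨hd.nonneg x, hC x⟩
  have h := int_mg hf S (h := fun x => Real.log (mg μ S f x)) (Real.measurable_log.comp hd.meas)
    (fun x x' hx => by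
      show Real.log (mg μ S f x) = Real.log (mg μ S f x')
      rw [mg_congr S f hx]) hi
  exact ⟨h.1, h.2.symm⟩

theorem ent_mg (hf : Dens μ f) {S T : Finset (Fin k)} (h : S ⊆ T) :
    Ent μ S (mg μ T f) = Ent μ S f := by
  unfold Ent
  rw [mg_mg hf h]

/-- **Gibbs' inequality.** -/
theorem gibbs (hf : Dens μ f) {g : (Fin k → X) → ℝ} (hg : Measurable g) (hg0 : ∀ x, 0 ≤ g x)
    {m : ℝ} (hm : 0 < m)
    (hgi : ∫⁻ x in {x | 0 < f x}, ENNReal.ofReal (g x) ∂(Measure.pi fun _ : Fin k => μ) ≤
      ENNReal.ofReal m)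
    (hpos : ∀ᵐ x ∂(Measure.pi fun _ : Fin k => μ), 0 < f x → 0 < g x)
    (hi : Integrable (fun x => f x * Real.log (g x)) (Measure.pi fun _ : Fin k => μ)) :
    ∫ x, f x * Real.log (g x) ∂(Measure.pi fun _ : Fin k => μ) ≤
      Ent μ Finset.univ f + Real.log m := by
  set P : Measure (Fin k → X) := Measure.pi fun _ : Fin k => μ with hP
  have hA : MeasurableSet {x | 0 < f x} := measurableSet_lt measurable_const hf.meas
  have hfi : Integrable f P := dens_int hf
  have h1 := ent_int hf Finset.univ
  rw [← hP] at h1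
  simp only [mg_univ] at h1
  have hgA : IntegrableOn g {x | 0 < f x} P := by
    refine ⟨hg.aestronglyMeasurable, ?_⟩
    have h2 : ∫⁻ x in {x | 0 < f x}, ‖g x‖ₑ ∂P = ∫⁻ x in {x | 0 < f x}, ENNReal.ofReal (g x) ∂P :=
      lintegral_congr fun x => by
        rw [← ofReal_norm, Real.norm_of_nonneg (hg0 x)]
    rw [hasFiniteIntegral_iff_enorm, h2]
    exact hgi.trans_lt ENNReal.ofReal_lt_top
  have hgm : ∫ x in {x | 0 < f x}, g x ∂P ≤ m := by
    rw [integral_eq_lintegral_of_nonneg_ae (ae_of_all _ hg0) hg.aestronglyMeasurable]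
    exact ENNReal.toReal_le_of_le_ofReal hm.le hgi
  have hfA : ∫ x in {x | 0 < f x}, f x ∂P = 1 := by
    rw [← hf.int]
    refine setIntegral_eq_integral_of_forall_compl_eq_zero fun x hx => ?_
    exact le_antisymm (not_lt.1 hx) (hf.nonneg x)
  have hL : Integrable (fun x => f x * Real.log (g x) - f x * Real.log (f x) - f x * Real.log m) P :=
    (hi.sub h1.1).sub (hfi.mul_const _)
  have hR : IntegrableOn (fun x => g x / m - f x) {x | 0 < f x} P :=
    (hgA.div_const m).sub hfi.integrableOn
  have h3 : ∫ x, (f x * Real.log (g x) - f x * Real.log (f x) - f x * Real.log m) ∂P ≤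
      ∫ x, {x | 0 < f x}.indicator (fun x => g x / m - f x) x ∂P := by
    refine integral_mono_ae hL (hR.integrable_indicator hA) ?_
    filter_upwards [hpos] with x hx
    by_cases h0 : 0 < f x
    · have hgx := hx h0
      rw [indicator_of_mem (show x ∈ {x | 0 < f x} from h0)]
      have h4 : Real.log (g x / (m * f x)) ≤ g x / (m * f x) - 1 :=
        Real.log_le_sub_one_of_pos (div_pos hgx (mul_pos hm h0))
      have h5 : Real.log (g x / (m * f x)) = Real.log (g x) - Real.log (f x) - Real.log m := by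
        rw [Real.log_div hgx.ne' (mul_pos hm h0).ne', Real.log_mul hm.ne' h0.ne']
        ring
      rw [h5] at h4
      have h6 := mul_le_mul_of_nonneg_left h4 h0.le
      have h7 : f x * (g x / (m * f x) - 1) = g x / m - f x := by
        field_simp
      rw [h7] at h6
      calc f x * Real.log (g x) - f x * Real.log (f x) - f x * Real.log m
          = f x * (Real.log (g x) - Real.log (f x) - Real.log m) := by ring
        _ ≤ g x / m - f x := h6
    · have hf0 : f x = 0 := le_antisymm (not_lt.1 h0) (hf.nonneg x)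
      rw [indicator_of_notMem (show x ∉ {x | 0 < f x} from h0), hf0]
      simp
  have h4 : ∫ x, (f x * Real.log (g x) - f x * Real.log (f x) - f x * Real.log m) ∂P =
      ∫ x, f x * Real.log (g x) ∂P - Ent μ Finset.univ f - Real.log m := by
    have e1 : ∫ x, (f x * Real.log (g x) - f x * Real.log (f x) - f x * Real.log m) ∂P =
        ∫ x, (f x * Real.log (g x) - f x * Real.log (f x)) ∂P - ∫ x, f x * Real.log m ∂P :=
      integral_sub (hi.sub h1.1) (hfi.mul_const _)
    have e2 : ∫ x, (f x * Real.log (g x) - f x * Real.log (f x)) ∂P =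
        ∫ x, f x * Real.log (g x) ∂P - ∫ x, f x * Real.log (f x) ∂P := integral_sub hi h1.1
    rw [e1, e2, ← h1.2, integral_mul_const, hf.int, one_mul]
  have h5 : ∫ x, {x | 0 < f x}.indicator (fun x => g x / m - f x) x ∂P ≤ 0 := by
    have e3 : ∫ x in {x | 0 < f x}, (g x / m - f x) ∂P =
        ∫ x in {x | 0 < f x}, g x / m ∂P - ∫ x in {x | 0 < f x}, f x ∂P :=
      integral_sub (hgA.div_const m) hfi.integrableOn
    rw [integral_indicator hA, e3, hfA, integral_div]
    have : (∫ x in {x | 0 < f x}, g x ∂P) / m ≤ 1 := (div_le_one hm).2 hgm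
    linarith
  rw [h4] at h3
  linarith

end Pool.Agent.Helper63.SM
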