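import Pool.Agent.Helper5.SM.Marg

/-!
# Project SM, block TR2: large partial transversals
-/

set_option autoImplicit false

open MeasureTheory Set Filter Topology

namespace Pool.Agent.Helper63.SM

section trans

variable {X : Type*} [MeasurableSpace X] {μ : Measure X} [IsProbabilityMeasure μ]
  {R : X → X → Prop} {k : ℕ}

omit [IsProbabilityMeasure μ] in
theorem measurableSet_IndS38 (hR : MeasurableSet {p : X × X | R p.1 p.2}) (S : Finset (Fin k)) :
    MeasurableSet (IndS (k := k) R S) := by
  have h : IndS (k := k) R S = ⋂ i ∈ S, ⋂ j ∈ S, ⋂ _ : i ≠ j,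
      ((fun x : Fin k → X => (x i, x j)) ⁻¹' {p : X × X | R p.1 p.2})ᶜ := by
    ext x
    simp only [IndS, mem_ofPred_eq, mem_iInter, mem_compl_iff, mem_preimage]
  rw [h]
  refine Finset.measurableSet_biInter _ fun i _ => Finset.measurableSet_biInter _ fun j _ =>
    MeasurableSet.iInter fun _ => ?_
  exact (((measurable_pi_apply i).prodMk (measurable_pi_apply j)) hR).compl

/-- the indicator of the tuples without conflict -/
theorem meas_ind38 (hR : MeasurableSet {p : X × X | R p.1 p.2}) :
    Measurable ((IndS (k := k) R Finset.univ).indicator fun _ => (1 : ℝ)) :=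
  measurable_const.indicator (measurableSet_IndS38 hR _)

theorem ex_meas38 (hR : MeasurableSet {p : X × X | R p.1 p.2}) (S : Finset (Fin k)) :
    Measurable (ex μ R S) := mg_meas (meas_ind38 hR) S

omit [IsProbabilityMeasure μ] in
theorem ex_eq38 (hR : MeasurableSet {p : X × X | R p.1 p.2}) (S : Finset (Fin k)) (x : Fin k → X) :
    ex μ R S x = (Measure.pi fun _ : Fin k => μ).real {y | S.piecewise x y ∈ IndS R Finset.univ} := by
  have hm : MeasurableSet {y | S.piecewise x y ∈ IndS (k := k) R Finset.univ} :=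
    ((measurable_pw S).comp (measurable_const.prodMk measurable_id)) (measurableSet_IndS38 hR _)
  unfold ex mg
  rw [← integral_indicator_one hm]
  refine integral_congr_ae (ae_of_all _ fun y => ?_)
  show (IndS R Finset.univ).indicator (fun _ => (1 : ℝ)) (S.piecewise x y) =
    {y | S.piecewise x y ∈ IndS (k := k) R Finset.univ}.indicator 1 y
  by_cases h : S.piecewise x y ∈ IndS (k := k) R Finset.univ
  · rw [indicator_of_mem h, indicator_of_mem (show y ∈ {y | S.piecewise x y ∈ IndS R Finset.univ} from h)]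
    rfl
  · rw [indicator_of_notMem h,
      indicator_of_notMem (show y ∉ {y | S.piecewise x y ∈ IndS R Finset.univ} from h)]

theorem ex_nonneg38 (hR : MeasurableSet {p : X × X | R p.1 p.2}) (S : Finset (Fin k)) (x : Fin k → X) :
    0 ≤ ex μ R S x := by
  rw [ex_eq38 hR]
  exact measureReal_nonneg

theorem ex_le_one38 (hR : MeasurableSet {p : X × X | R p.1 p.2}) (S : Finset (Fin k)) (x : Fin k → X) :
    ex μ R S x ≤ 1 := by
  rw [ex_eq38 hR]
  exact measureReal_le_one

omit [IsProbabilityMeasure μ] in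
theorem pr_eq38 : pr μ R k = (Measure.pi fun _ : Fin k => μ).real (IndS R Finset.univ) := by
  unfold pr
  congr 1
  ext x
  simp [IndS]

theorem ex_empty38 (hR : MeasurableSet {p : X × X | R p.1 p.2}) (x : Fin k → X) :
    ex μ R ∅ x = pr μ R k := by
  rw [ex_eq38 hR, pr_eq38]
  simp only [Finset.piecewise_empty]
  rfl

/-- integral of a section -/
theorem int_section38 {G : Set (Fin k → X)} (hG : MeasurableSet G) (S : Finset (Fin k)) :
    Integrable (fun x => (Measure.pi fun _ : Fin k => μ).real {y | S.piecewise x y ∈ G})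
      (Measure.pi fun _ : Fin k => μ) ∧
    ∫ x, (Measure.pi fun _ : Fin k => μ).real {y | S.piecewise x y ∈ G} ∂(Measure.pi fun _ : Fin k => μ) =
      (Measure.pi fun _ : Fin k => μ).real G := by
  have hm : Measurable (G.indicator fun _ => (1 : ℝ)) := measurable_const.indicator hG
  have hi : Integrable (G.indicator fun _ => (1 : ℝ)) (Measure.pi fun _ : Fin k => μ) :=
    (integrable_const (1 : ℝ)).indicator hG
  have e : (fun x => (Measure.pi fun _ : Fin k => μ).real {y | S.piecewise x y ∈ G}) =
      mg μ S (G.indicator fun _ => (1 : ℝ)) := by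
    funext x
    have hmx : MeasurableSet {y | S.piecewise x y ∈ G} :=
      ((measurable_pw S).comp (measurable_const.prodMk measurable_id)) hG
    unfold mg
    rw [← integral_indicator_one hmx]
    refine integral_congr_ae (ae_of_all _ fun y => ?_)
    show {y | S.piecewise x y ∈ G}.indicator 1 y = G.indicator (fun _ => (1 : ℝ)) (S.piecewise x y)
    by_cases h : S.piecewise x y ∈ G
    · rw [indicator_of_mem h, indicator_of_mem (show y ∈ {y | S.piecewise x y ∈ G} from h)]
      rfl
    · rw [indicator_of_notMem h, indicator_of_notMem (show y ∉ {y | S.piecewise x y ∈ G} from h)]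
  have hmg : Measurable (mg μ S (G.indicator fun _ => (1 : ℝ))) := mg_meas hm S
  have hb : ∀ x, |mg μ S (G.indicator fun _ => (1 : ℝ)) x| ≤ 1 := by
    intro x
    rw [← congrFun e x, abs_of_nonneg measureReal_nonneg]
    exact measureReal_le_one
  rw [e]
  refine ⟨int_bdd hmg hb, ?_⟩
  have h := int_pw (μ := μ) S hi
  have h2 : ∫ x, (G.indicator fun _ => (1 : ℝ)) x ∂(Measure.pi fun _ : Fin k => μ) =
      (Measure.pi fun _ : Fin k => μ).real G := integral_indicator_one hG
  rw [← h2, h]
  rfl

/-- existence of large partial transversals, from the second moment -/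
theorem trans_of (hR : MeasurableSet {p : X × X | R p.1 p.2})
    (hsecond : ∀ (r : ℕ), 1 ≤ r → ∀ (V : Finset (Fin k)) (u : Fin k → X) (G : Set (Fin k → X)),
      MeasurableSet G → G ⊆ IndS R Finset.univ → ∀ Λ g : ℝ, 0 ≤ Λ →
      (∀ y ∈ G, (∀ i ∈ V, y i = u i) → ∀ S : Finset (Fin k), V ⊆ S →
        ex μ R S y ≤ ex μ R V u * Λ ^ (S.card - V.card)) →
      g = (Measure.pi fun _ : Fin k => μ).real {y | V.piecewise u y ∈ G} → 0 < g →
      g / (ex μ R V u * (1 + Λ / r) ^ k) ≤
        (Measure.pi fun _ : Fin k => Measure.pi fun _ : Fin r => μ).real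
          {ω | ∃ c : Fin k → Fin r, V.piecewise u (fun b => ω b (c b)) ∈ G})
    {r : ℕ} (hr : 1 ≤ r) {Λ : ℝ}
    (hΛ : 0 < Λ) (hpr : 0 < pr μ R k) {v : ℕ} (hv : 1 ≤ v)
    (hstar : ∀ S : Finset (Fin k), v ≤ S.card → (Measure.pi fun _ : Fin k => μ).real
      {x | x ∈ IndS R Finset.univ ∧ pr μ R k * Λ ^ S.card ≤ ex μ R S x} ≤
        pr μ R k / 4 ^ k) (hk : 1 ≤ k) :
    1 / (2 * ((Finset.univ : Finset (Finset (Fin k))).filter fun V => V.card < v).card *
        (1 + Λ / r) ^ k) ≤
      (Measure.pi fun _ : Fin k => Measure.pi fun _ : Fin r => μ).real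
        {ω | ∃ (T : Finset (Fin k)) (c : Fin k → Fin r), k < T.card + v ∧
          ∀ i ∈ T, ∀ j ∈ T, i ≠ j → ¬ R (ω i (c i)) (ω j (c j))} := by
  classical
  set P : Measure (Fin k → X) := Measure.pi fun _ : Fin k => μ with hP
  set p : ℝ := pr μ R k with hp
  set F : Finset (Finset (Fin k)) := (Finset.univ : Finset (Finset (Fin k))).filter fun V => V.card < v
    with hF
  have hI : MeasurableSet (IndS (k := k) R Finset.univ) := measurableSet_IndS38 hR _
  have hpI : p = P.real (IndS R Finset.univ) := pr_eq38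
  have hF0 : (∅ : Finset (Fin k)) ∈ F := by
    rw [hF, Finset.mem_filter]
    exact ⟨Finset.mem_univ _, by rw [Finset.card_empty]; omega⟩
  have hN : 0 < (F.card : ℝ) := by exact_mod_cast Finset.card_pos.2 ⟨∅, hF0⟩
  -- the good sets
  let Gd : Finset (Fin k) → Set (Fin k → X) := fun V =>
    {x | x ∈ IndS R Finset.univ ∧ ∀ S : Finset (Fin k), V ⊆ S →
      ex μ R S x ≤ ex μ R V x * Λ ^ (S.card - V.card)}
  have hGm : ∀ V, MeasurableSet (Gd V) := by
    intro V
    have e : Gd V = IndS R Finset.univ ∩ ⋂ S : Finset (Fin k), ⋂ _ : V ⊆ S,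
        {x | ex μ R S x ≤ ex μ R V x * Λ ^ (S.card - V.card)} := by
      ext x
      simp only [Gd, mem_ofPred_eq, mem_inter_iff, mem_iInter]
    rw [e]
    exact hI.inter (MeasurableSet.iInter fun S => MeasurableSet.iInter fun _ =>
      measurableSet_le (ex_meas38 hR S) ((ex_meas38 hR V).mul_const _))
  let Bd : Finset (Fin k) → Set (Fin k → X) := fun S =>
    {x | x ∈ IndS R Finset.univ ∧ p * Λ ^ S.card ≤ ex μ R S x}
  have hcov : IndS (k := k) R Finset.univ ⊆ (⋃ V ∈ F, Gd V) ∪
      ⋃ S ∈ (Finset.univ : Finset (Finset (Fin k))).filter fun S => v ≤ S.card, Bd S := by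
    intro x hx
    by_cases hb : ∃ S : Finset (Fin k), v ≤ S.card ∧ p * Λ ^ S.card ≤ ex μ R S x
    · right
      obtain ⟨S, hS, hS2⟩ := hb
      simp only [mem_iUnion]
      exact ⟨S, by simpa using hS, hx, hS2⟩
    · left
      push Not at hb
      obtain ⟨V, -, hV⟩ := Finset.exists_max_image (Finset.univ : Finset (Finset (Fin k)))
        (fun S => ex μ R S x / Λ ^ S.card) ⟨∅, Finset.mem_univ _⟩
      have hV0 := hV ∅ (Finset.mem_univ _)
      rw [ex_empty38 hR, Finset.card_empty, pow_zero, div_one] at hV0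
      have hVc : V.card < v := by
        by_contra hc
        have h1 := hb V (not_lt.1 hc)
        rw [le_div_iff₀ (by positivity)] at hV0
        exact absurd hV0 (not_le.2 h1)
      simp only [mem_iUnion]
      refine ⟨V, by rw [hF, Finset.mem_filter]; exact ⟨Finset.mem_univ _, hVc⟩, hx, fun S hVS => ?_⟩
      have h1 := hV S (Finset.mem_univ _)
      rw [div_le_div_iff₀ (by positivity) (by positivity)] at h1
      have hcard : V.card ≤ S.card := Finset.card_le_card hVS
      have e1 : Λ ^ S.card = Λ ^ V.card * Λ ^ (S.card - V.card) := by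
        rw [← pow_add, Nat.add_sub_cancel' hcard]
      rw [e1] at h1
      have hVp : 0 < Λ ^ V.card := by positivity
      refine le_of_mul_le_mul_left ?_ hVp
      calc Λ ^ V.card * ex μ R S x = ex μ R S x * Λ ^ V.card := by ring
        _ ≤ ex μ R V x * (Λ ^ V.card * Λ ^ (S.card - V.card)) := h1
        _ = Λ ^ V.card * (ex μ R V x * Λ ^ (S.card - V.card)) := by ring
  have hbad : P.real (⋃ S ∈ (Finset.univ : Finset (Finset (Fin k))).filter fun S => v ≤ S.card, Bd S) ≤
      p / 2 := by
    refine (measureReal_biUnion_finset_le _ _).trans ?_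
    have h1 : ∑ S ∈ (Finset.univ : Finset (Finset (Fin k))).filter (fun S => v ≤ S.card), P.real (Bd S) ≤
        ∑ S ∈ (Finset.univ : Finset (Finset (Fin k))).filter (fun S => v ≤ S.card), p / 4 ^ k :=
      Finset.sum_le_sum fun S hS => hstar S (Finset.mem_filter.1 hS).2
    refine h1.trans ?_
    rw [Finset.sum_const, nsmul_eq_mul]
    have h2 : (((Finset.univ : Finset (Finset (Fin k))).filter (fun S => v ≤ S.card)).card : ℝ) ≤ 2 ^ k := by
      have h3 := Finset.card_filter_le (Finset.univ : Finset (Finset (Fin k))) (fun S => v ≤ S.card)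
      rw [Finset.card_univ, Fintype.card_finset, Fintype.card_fin] at h3
      exact_mod_cast h3
    have h4 : (4 : ℝ) ^ k = 2 ^ k * 2 ^ k := by rw [← mul_pow]; norm_num
    have h5 : (2 : ℝ) ≤ 2 ^ k := by
      calc (2 : ℝ) = 2 ^ 1 := by norm_num
        _ ≤ 2 ^ k := pow_le_pow_right₀ (by norm_num) hk
    have h6 : 0 ≤ p / 4 ^ k := by positivity
    calc _ ≤ 2 ^ k * (p / 4 ^ k) := mul_le_mul_of_nonneg_right h2 h6
      _ = p / 2 ^ k := by rw [h4]; field_simp
      _ ≤ p / 2 := div_le_div_of_nonneg_left hpr.le (by norm_num) h5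
  have hsum : p / 2 ≤ ∑ V ∈ F, P.real (Gd V) := by
    have h1 : p ≤ P.real (⋃ V ∈ F, Gd V) + p / 2 := by
      rw [hpI]
      nth_rewrite 2 [← hpI]
      refine (measureReal_mono hcov).trans ((measureReal_union_le _ _).trans ?_)
      linarith
    have h2 : P.real (⋃ V ∈ F, Gd V) ≤ ∑ V ∈ F, P.real (Gd V) := measureReal_biUnion_finset_le _ _
    linarith
  obtain ⟨V, hVF, hV⟩ : ∃ V ∈ F, p / 2 / F.card ≤ P.real (Gd V) := by
    by_contra hc
    push Not at hc
    have h1 : ∑ V ∈ F, P.real (Gd V) < ∑ V ∈ F, p / 2 / F.card :=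
      Finset.sum_lt_sum_of_nonempty ⟨∅, hF0⟩ hc
    rw [Finset.sum_const, nsmul_eq_mul, mul_div_cancel₀ _ hN.ne'] at h1
    linarith
  have hVc : V.card < v := by
    rw [hF, Finset.mem_filter] at hVF
    exact hVF.2
  -- a good choice of the fixed points
  have hsecG := int_section38 (μ := μ) (hGm V) V
  have hsecI := int_section38 (μ := μ) hI V
  rw [← hP] at hsecG hsecI
  obtain ⟨u, hu0, hu⟩ : ∃ u : Fin k → X, 0 < ex μ R V u ∧
      ex μ R V u / (2 * F.card) ≤ P.real {y | V.piecewise u y ∈ Gd V} := by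
    by_contra hc
    push Not at hc
    have hsub : ∀ u : Fin k → X, P.real {y | V.piecewise u y ∈ Gd V} ≤ ex μ R V u := by
      intro u
      rw [ex_eq38 hR]
      exact measureReal_mono fun y hy => hy.1
    have e1 : ∀ u : Fin k → X, P.real {y | V.piecewise u y ∈ IndS R Finset.univ} = ex μ R V u :=
      fun u => (ex_eq38 hR V u).symm
    have hexi : Integrable (ex μ R V) P := by
      refine hsecI.1.congr (ae_of_all _ fun u => e1 u)
    have hexv : ∫ u, ex μ R V u ∂P = p := by
      rw [hpI, ← hsecI.2]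
      exact integral_congr_ae (ae_of_all _ fun u => (e1 u).symm)
    have hD0 : ∀ u, 0 ≤ ex μ R V u / (2 * F.card) - P.real {y | V.piecewise u y ∈ Gd V} := by
      intro u
      by_cases h : 0 < ex μ R V u
      · linarith [hc u h]
      · have h0 : ex μ R V u = 0 := le_antisymm (not_lt.1 h) (ex_nonneg38 hR V u)
        have h1 := hsub u
        rw [h0] at h1 ⊢
        rw [zero_div]
        linarith
    have hDi : Integrable (fun u => ex μ R V u / (2 * F.card) - P.real {y | V.piecewise u y ∈ Gd V}) P :=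
      (hexi.div_const _).sub hsecG.1
    have hDint : ∫ u, (ex μ R V u / (2 * F.card) - P.real {y | V.piecewise u y ∈ Gd V}) ∂P ≤ 0 := by
      have h1 : ∫ u, (ex μ R V u / (2 * F.card) - P.real {y | V.piecewise u y ∈ Gd V}) ∂P =
          ∫ u, ex μ R V u / (2 * F.card) ∂P - ∫ u, P.real {y | V.piecewise u y ∈ Gd V} ∂P :=
        integral_sub (hexi.div_const _) hsecG.1
      rw [h1, integral_div, hexv, hsecG.2]
      have h2 : p / (2 * F.card) = p / 2 / F.card := by field_simp
      rw [h2]
      linarith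
    have hD1 : ∫ u, (ex μ R V u / (2 * F.card) - P.real {y | V.piecewise u y ∈ Gd V}) ∂P = 0 :=
      le_antisymm hDint (integral_nonneg hD0)
    have hD2 := (integral_eq_zero_iff_of_nonneg hD0 hDi).1 hD1
    have hex0 : ex μ R V =ᵐ[P] 0 := by
      filter_upwards [hD2] with u hu
      by_contra hne
      have hpos : 0 < ex μ R V u := lt_of_le_of_ne (ex_nonneg38 hR V u) (Ne.symm hne)
      have h1 := hc u hpos
      have h2 : ex μ R V u / (2 * F.card) - P.real {y | V.piecewise u y ∈ Gd V} = 0 := hu
      linarith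
    have h3 : ∫ u, ex μ R V u ∂P = 0 := by
      rw [integral_congr_ae hex0]
      simp
    rw [hexv] at h3
    linarith
  have hg0 : 0 < P.real {y | V.piecewise u y ∈ Gd V} := lt_of_lt_of_le (by positivity) hu
  have hsm := hsecond r hr V u (Gd V) (hGm V) (fun y hy => hy.1) Λ _ hΛ.le
    (fun y hy hyu S hVS => by
      have h1 := hy.2 S hVS
      have h2 : ex μ R V y = ex μ R V u := mg_congr V _ hyu
      rwa [h2] at h1) rfl hg0
  refine le_trans ?_ (hsm.trans ?_)
  · have hpow : 0 < (1 + Λ / r) ^ k := by positivity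
    rw [div_le_div_iff₀ (by positivity) (by positivity)]
    rw [div_le_iff₀ (by positivity)] at hu
    calc 1 * (ex μ R V u * (1 + Λ / r) ^ k) = ex μ R V u * (1 + Λ / r) ^ k := one_mul _
      _ ≤ P.real {y | V.piecewise u y ∈ Gd V} * (2 * F.card) * (1 + Λ / r) ^ k :=
        mul_le_mul_of_nonneg_right hu hpow.le
      _ = _ := by ring
  · refine measureReal_mono ?_
    rintro ω ⟨c, hc⟩
    refine ⟨Vᶜ, c, ?_, ?_⟩
    · rw [Finset.card_compl, Fintype.card_fin]
      have : V.card ≤ k := by
        have := Finset.card_le_univ V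
        rwa [Fintype.card_fin] at this
      omega
    · intro i hi j hj hij
      have h1 := hc.1 i (Finset.mem_univ _) j (Finset.mem_univ _) hij
      have ei : V.piecewise u (fun b => ω b (c b)) i = ω i (c i) :=
        Finset.piecewise_eq_of_notMem _ _ _ (Finset.mem_compl.1 hi)
      have ej : V.piecewise u (fun b => ω b (c b)) j = ω j (c j) :=
        Finset.piecewise_eq_of_notMem _ _ _ (Finset.mem_compl.1 hj)
      rwa [ei, ej] at h1

end trans

end Pool.Agent.Helper63.SM
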